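import Pool.Agent.H71.Patch.Defs

/-!
# Definitions for the two-adic descent theorem (MP_976e2b_nt)
-/

open scoped Pointwise NumberField
open Matrix IsDedekindDomain Pool.Agent.H71.Patch

namespace Pool.Agent.H19.OD

/-- The family `L` of extensions of `K` is *prime to `n`*: for every finite Galois extension `M` of
`K` some `L i ∩ M` has degree prime to `n` over `K`. (One `L i` of degree prime to `n` over `K` is
enough; so is a family in general position.) -/
def PrimeTo {K : Type*} [Field K] (n : ℕ) {ι : Type*}
    (L : ι → IntermediateField K (AlgebraicClosure K)) : Prop :=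
  ∀ M : IntermediateField K (AlgebraicClosure K), FiniteDimensional K M → IsGalois K M →
    ∃ i, (Module.finrank K ↥(L i ⊓ M)).Coprime n

/-- `ρ` is absolutely irreducible on every open subgroup `U` of its group `A`: the matrices `ρ(u)`,
`u` in `U`, span the algebra of all matrices. -/
def StronglyIrred {Γ : Type*} [Group Γ] [TopologicalSpace Γ] {A : Subgroup Γ} {F : Type*} [Field F]
    {n : ℕ} (ρ : A →* GL (Fin n) F) : Prop :=
  ∀ U : Subgroup Γ, IsOpen (U : Set Γ) → U ≤ A →
    Submodule.span F {M : Matrix (Fin n) (Fin n) F | ∃ u : A, (u : Γ) ∈ U ∧ M = (ρ u).1} = ⊤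

/-- Frobenius' density theorem in the form which is used: modulo an open normal subgroup every
element `x` of the Galois group generates the same subgroup as some Frobenius element at a prime
outside a given finite set. -/
def FrobDiv (K : Type*) [Field K] [NumberField K] : Prop :=
  ∀ M : IntermediateField K (AlgebraicClosure K), FiniteDimensional K M → IsGalois K M →
    ∀ S : Set (HeightOneSpectrum (𝓞 K)), S.Finite → ∀ x : GalK K,
      ∃ v : HeightOneSpectrum (𝓞 K), v ∉ S ∧ ∃ Q : Ideal (Zbar K), Above v Q ∧
        Dec Q ≤ Subgroup.zpowers x ⊔ M.fixingSubgroup ∧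
        ∃ φ : GalK K, IsArithFrobAt (𝓞 K) φ Q ∧ ∃ k : ℕ, x⁻¹ * φ ^ k ∈ M.fixingSubgroup

end Pool.Agent.H19.OD
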