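import Pool.Agent.H71.Patch.Fields

/-!
# The index of the join of two Galois groups
-/

open scoped Pointwise NumberField
open Matrix IsDedekindDomain

namespace Pool.Agent.H19.OD

section Gal

variable {K Ω : Type*} [Field K] [Field Ω] [Algebra K Ω] [IsGalois K Ω]

lemma fixingSubgroup_sup (L M : IntermediateField K Ω) [FiniteDimensional K L] :
    L.fixingSubgroup ⊔ M.fixingSubgroup = (L ⊓ M).fixingSubgroup := by
  apply le_antisymm
  · exact sup_le (IntermediateField.fixingSubgroup_le inf_le_left)
      (IntermediateField.fixingSubgroup_le inf_le_right)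
  have hopen : IsOpen ((L.fixingSubgroup ⊔ M.fixingSubgroup : Subgroup Gal(Ω/K)) :
      Set Gal(Ω/K)) :=
    Subgroup.isOpen_mono le_sup_left L.fixingSubgroup_isOpen
  have hclosed := Subgroup.isClosed_of_isOpen _ hopen
  have hfix : (IntermediateField.fixedField
      (L.fixingSubgroup ⊔ M.fixingSubgroup)).fixingSubgroup =
        L.fixingSubgroup ⊔ M.fixingSubgroup :=
    InfiniteGalois.fixingSubgroup_fixedField (k := K) (K := Ω)
      ⟨L.fixingSubgroup ⊔ M.fixingSubgroup, hclosed⟩
  rw [← hfix]
  apply IntermediateField.fixingSubgroup_le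
  refine le_inf ?_ ?_
  · conv_rhs => rw [← InfiniteGalois.fixedField_fixingSubgroup L]
    intro x hx g
    exact hx ⟨g.1, (le_sup_left : L.fixingSubgroup ≤ _) g.2⟩
  · conv_rhs => rw [← InfiniteGalois.fixedField_fixingSubgroup M]
    intro x hx g
    exact hx ⟨g.1, (le_sup_right : M.fixingSubgroup ≤ _) g.2⟩

lemma index_sup (L M : IntermediateField K Ω) [FiniteDimensional K L] :
    (L.fixingSubgroup ⊔ M.fixingSubgroup).index =
      Module.finrank K ↥(L ⊓ M) := by
  rw [fixingSubgroup_sup, IntermediateField.finrank_eq_fixingSubgroup_index]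

end Gal

end Pool.Agent.H19.OD
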