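import Pool.Agent.H19.OD.Trace
import Pool.Agent.H19.OD.Index
import Pool.Agent.H71.Patch.Main

/-!
# The descent theorem, from Frobenius density (`FrobDiv`) and the group theory (`Glue`, `Uniq`)
-/

open scoped Pointwise NumberField
open Matrix IsDedekindDomain Pool.Agent.H71.Patch

namespace Pool.Agent.H19.OD

/-- Statement of the group theory (existence). -/
def Glue (Γ : Type*) [Group Γ] (F : Type*) [Field F] (n : ℕ) (ι : Type*) : Prop :=
  ∀ (Bas : Set (Subgroup Γ)), (∀ U ∈ Bas, U.Normal) →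
    (∀ U ∈ Bas, ∀ V ∈ Bas, ∃ W ∈ Bas, W ≤ U ⊓ V) →
    ∀ (H : ι → Subgroup Γ), (∀ i, ∃ U ∈ Bas, U ≤ H i) →
    (∀ U ∈ Bas, ∃ i, (H i ⊔ U).index ≠ 0 ∧ ((H i ⊔ U).index).Coprime n) →
    ∀ (ρ : ∀ i, H i →* GL (Fin n) F) (δ : Γ →* Fˣ),
    (∀ i (x : H i), Matrix.GeneralLinearGroup.det (ρ i x) = δ x) →
    (∀ i j (g : Γ) (x : H i) (y : H j), (y : Γ) = g * x * g⁻¹ →
      (ρ i x).val.trace = (ρ j y).val.trace) →
    ∀ i0, (∀ U ∈ Bas, U ≤ H i0 →
      Submodule.span F {X | ∃ u : H i0, (u : Γ) ∈ U ∧ X = (ρ i0 u).val} = ⊤) →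
    ∃ σ : Γ →* GL (Fin n) F, (∀ g, Matrix.GeneralLinearGroup.det (σ g) = δ g) ∧
      (∀ i, ∃ T : GL (Fin n) F, ∀ x : H i, ρ i x = T * σ x * T⁻¹) ∧
      ∀ τ : Γ →* GL (Fin n) F, (∀ g, Matrix.GeneralLinearGroup.det (τ g) = δ g) →
        (∀ i, ∃ T : GL (Fin n) F, ∀ x : H i, ρ i x = T * τ x * T⁻¹) →
        ∃ T : GL (Fin n) F, ∀ g, τ g = T * σ g * T⁻¹

section Gal

variable {K Ω : Type*} [Field K] [Field Ω] [Algebra K Ω] [IsGalois K Ω]

omit [IsGalois K Ω] in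
/-- a representation which is conjugate to a continuous one on an open subgroup is continuous -/
lemma continuous_of_restrict {F : Type*} [Field F] [TopologicalSpace F] [IsTopologicalRing F]
    {n : ℕ} (L : IntermediateField K Ω) [FiniteDimensional K L]
    (ρ : L.fixingSubgroup →* GL (Fin n) F) (hρ : Continuous ρ) (σ : Gal(Ω/K) →* GL (Fin n) F)
    (T : GL (Fin n) F) (hT : ∀ g : L.fixingSubgroup, ρ g = T * σ g * T⁻¹) : Continuous σ := by
  apply continuous_of_continuousAt_one σ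
  have hopen : IsOpen (L.fixingSubgroup : Set Gal(Ω/K)) := L.fixingSubgroup_isOpen
  have h1 : ContinuousOn σ (L.fixingSubgroup : Set Gal(Ω/K)) := by
    rw [continuousOn_iff_continuous_domRestrict]
    have h2 : Set.domRestrict (L.fixingSubgroup : Set Gal(Ω/K)) σ =
        fun g : L.fixingSubgroup => T⁻¹ * ρ g * T := by
      funext g
      show σ g.1 = _
      rw [hT g]
      group
    rw [h2]
    exact (continuous_const.mul hρ).mul continuous_const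
  exact h1.continuousAt (hopen.mem_nhds (Subgroup.one_mem _))

end Gal

variable {K : Type*} [Field K] [NumberField K] {F : Type*} [Field F] [TopologicalSpace F]
  [IsTopologicalRing F] [T2Space F] {n : ℕ} {ι : Type*}

/-- **Descent.** -/
theorem descend (hFD : FrobDiv K) (hG : Glue (GalK K) F n ι)
    (L : ι → IntermediateField K (AlgebraicClosure K)) [∀ i, FiniteDimensional K (L i)]
    (hL : PrimeTo n L) (S : Set (HeightOneSpectrum (𝓞 K))) (hS : S.Finite)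
    (P : HeightOneSpectrum (𝓞 K) → Polynomial F) (δ : GalK K →* Fˣ) (hδ : Continuous δ)
    (hδP : ∀ v ∉ S, ∀ Q, Above v Q → ∀ φ : GalK K, IsArithFrobAt (𝓞 K) φ Q →
      ((δ φ : Fˣ) : F) = (-1) ^ n * (P v).coeff 0)
    (ρ : ∀ i, (L i).fixingSubgroup →* GL (Fin n) F) (hρ : ∀ i, Continuous (ρ i))
    (hP : ∀ i, ∀ v ∉ S, ∀ Q, Above v Q → Dec Q ≤ (L i).fixingSubgroup → FrobAt (ρ i) Q (P v))
    (i0 : ι) (irr : StronglyIrred (ρ i0)) :
    ∃ σ : GalK K →* GL (Fin n) F, Continuous σ ∧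
      (∀ g, Matrix.GeneralLinearGroup.det (σ g) = δ g) ∧
      (∀ i, ∃ T : GL (Fin n) F, ∀ g : (L i).fixingSubgroup, ρ i g = T * σ g * T⁻¹) ∧
      (∀ τ : GalK K →* GL (Fin n) F, (∀ g, Matrix.GeneralLinearGroup.det (τ g) = δ g) →
        (∀ i, ∃ T : GL (Fin n) F, ∀ g : (L i).fixingSubgroup, ρ i g = T * τ g * T⁻¹) →
        ∃ T : GL (Fin n) F, ∀ g, τ g = T * σ g * T⁻¹) ∧
      (∀ i, Irred (ρ i) → Irred σ) ∧
      (∀ v : HeightOneSpectrum (𝓞 K),
        (∃ i, ∃ Q, Above v Q ∧ Q.inertia (GalK K) ≤ (L i).fixingSubgroup ∧ UnramAt (ρ i) Q) →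
        ∀ Q, Above v Q → UnramAt (σ.comp (⊤ : Subgroup (GalK K)).subtype) Q) ∧
      (∀ v ∉ S, (∃ i, ∃ Q, Above v Q ∧ Dec Q ≤ (L i).fixingSubgroup) →
        ∀ Q, Above v Q → FrobAt (σ.comp (⊤ : Subgroup (GalK K)).subtype) Q (P v)) ∧
      (∀ W, IsLocalProperty W → ∀ v : HeightOneSpectrum (𝓞 K),
        (∃ i, ∃ Q, Above v Q ∧ PotAt W (ρ i) Q) →
        ∀ Q, Above v Q → PotAt W (σ.comp (⊤ : Subgroup (GalK K)).subtype) Q) := by
  have hopen : ∀ i, IsOpen ((L i).fixingSubgroup : Set (GalK K)) :=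
    fun i => (L i).fixingSubgroup_isOpen
  obtain ⟨σ, hdet, hT, huniq⟩ := hG (openNormal K (AlgebraicClosure K)) (fun U hU => hU.1)
    openNormal_inf (fun i => (L i).fixingSubgroup) (fun i => exists_openNormal_le (L i))
    (by
      intro U hU
      obtain ⟨M, h1, h2, rfl⟩ := openNormal_eq U hU
      obtain ⟨i, hi⟩ := hL M h1 h2
      refine ⟨i, ?_, ?_⟩
      · rw [index_sup]
        have : FiniteDimensional K ↥(L i ⊓ M) := inferInstance
        exact Module.finrank_pos.ne'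
      · rwa [index_sup])
    ρ δ (fun i x => det_eq hFD (hopen i) (ρ i) (hρ i) δ hδ S hS P (hP i) hδP x)
    (by
      intro i j g x y hxy
      have h1 : g * (x : GalK K) * g⁻¹ ∈ (L j).fixingSubgroup := by rw [← hxy]; exact y.2
      have h2 := trace_eq hFD (hopen i) (hopen j) (ρ i) (ρ j) (hρ i) (hρ j) S hS P (hP i) (hP j)
        g x x.2 h1
      have h3 : y = ⟨g * (x : GalK K) * g⁻¹, h1⟩ := Subtype.ext hxy
      rw [h3]
      exact h2)
    i0 (fun U hU hU' => irr U hU.2 hU')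
  obtain ⟨T0, hT0⟩ := hT i0
  refine ⟨σ, continuous_of_restrict (L i0) (ρ i0) (hρ i0) σ T0 hT0, hdet, hT, huniq, ?_, ?_, ?_, ?_⟩
  · intro i hi
    obtain ⟨T, hT⟩ := hT i
    exact irred_transfer σ (ρ i) T hT hi
  · rintro v ⟨i, Q, hQ, hD, hgood⟩ Q' hQ'
    obtain ⟨T, hT⟩ := hT i
    obtain ⟨g, rfl⟩ := above_smul hQ hQ'
    exact unram_conj σ g (unram_transfer σ (ρ i) T hT hD hgood)
  · rintro v hv ⟨i, Q, hQ, hD⟩ Q' hQ'
    obtain ⟨T, hT⟩ := hT i
    obtain ⟨g, rfl⟩ := above_smul hQ hQ'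
    exact frob_conj σ g (frob_transfer σ (ρ i) T hT hQ.1 hD (hP i v hv Q hQ hD))
  · rintro W hW v ⟨i, Q, hQ, hpot⟩ Q' hQ'
    obtain ⟨T, hT⟩ := hT i
    obtain ⟨g, rfl⟩ := above_smul hQ hQ'
    exact pot_transfer hW σ (ρ i) T hT g hpot

end Pool.Agent.H19.OD
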