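import Mathlib

/-!
# The traces of the powers of a matrix are determined by the characteristic polynomial
-/

open Polynomial

namespace Pool.Agent.H19.OD

section closed

variable {F : Type*} [Field F] {n : ℕ}

/-- `q ↦ det (q(X))` -/
noncomputable def detAt (X : Matrix (Fin n) (Fin n) F) : F[X] →* F :=
  (Matrix.detMonoidHom).comp (Polynomial.aeval X : F[X] →ₐ[F] Matrix (Fin n) (Fin n) F).toMonoidHom

lemma detAt_apply (X : Matrix (Fin n) (Fin n) F) (q : F[X]) :
    detAt X q = (Polynomial.aeval X q).det := rfl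

lemma detAt_C (X : Matrix (Fin n) (Fin n) F) (c : F) : detAt X (C c) = c ^ n := by
  rw [detAt_apply, Polynomial.aeval_C, Algebra.algebraMap_eq_smul_one, Matrix.det_smul,
    Matrix.det_one, mul_one, Fintype.card_fin]

lemma detAt_sub (X : Matrix (Fin n) (Fin n) F) (a : F) :
    detAt X (Polynomial.X - C a) = (-1) ^ n * X.charpoly.eval a := by
  rw [detAt_apply, map_sub, Polynomial.aeval_X, Polynomial.aeval_C, Matrix.eval_charpoly]
  rw [show X - (algebraMap F (Matrix (Fin n) (Fin n) F)) a = -(Matrix.scalar (Fin n) a - X) from by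
    rw [neg_sub]; rfl]
  rw [Matrix.det_neg, Fintype.card_fin]

lemma detAt_eq [IsAlgClosed F] (X Y : Matrix (Fin n) (Fin n) F) (h : X.charpoly = Y.charpoly)
    (q : F[X]) : detAt X q = detAt Y q := by
  have hs := (IsAlgClosed.splits q).eq_prod_roots
  rw [hs, map_mul, map_mul, detAt_C, detAt_C, map_multiset_prod, map_multiset_prod,
    Multiset.map_map, Multiset.map_map]
  congr 2
  apply Multiset.map_congr rfl
  intro a _
  show detAt X (Polynomial.X - C a) = detAt Y (Polynomial.X - C a)
  rw [detAt_sub, detAt_sub, h]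

lemma charpoly_pow_closed [IsAlgClosed F] (X Y : Matrix (Fin n) (Fin n) F)
    (h : X.charpoly = Y.charpoly) (k : ℕ) : (X ^ k).charpoly = (Y ^ k).charpoly := by
  apply Polynomial.funext
  intro s
  have h1 := detAt_eq X Y h (C s - Polynomial.X ^ k)
  rw [detAt_apply, detAt_apply, map_sub, map_sub, Polynomial.aeval_C, Polynomial.aeval_C, map_pow,
    map_pow, Polynomial.aeval_X, Polynomial.aeval_X] at h1
  rw [Matrix.eval_charpoly, Matrix.eval_charpoly]
  exact h1

end closed

theorem charpoly_pow {F : Type*} [Field F] {n : ℕ} (X Y : Matrix (Fin n) (Fin n) F)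
    (h : X.charpoly = Y.charpoly) (k : ℕ) : (X ^ k).charpoly = (Y ^ k).charpoly := by
  have h1 := charpoly_pow_closed (X.map (algebraMap F (AlgebraicClosure F)))
    (Y.map (algebraMap F (AlgebraicClosure F)))
    (by
      have e := congrArg (Polynomial.map (algebraMap F (AlgebraicClosure F))) h
      rwa [← Matrix.charpoly_map, ← Matrix.charpoly_map] at e) k
  apply Polynomial.map_injective (algebraMap F (AlgebraicClosure F))
    (FaithfulSMul.algebraMap_injective _ _)
  rw [← Matrix.charpoly_map, ← Matrix.charpoly_map]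
  have e : ∀ Z : Matrix (Fin n) (Fin n) F, (Z ^ k).map (algebraMap F (AlgebraicClosure F)) =
      (Z.map (algebraMap F (AlgebraicClosure F))) ^ k := by
    intro Z
    exact map_pow (RingHom.mapMatrix (algebraMap F (AlgebraicClosure F))) Z k
  rw [e X, e Y]
  exact h1

theorem trace_pow_eq {F : Type*} [Field F] {n : ℕ} (X Y : Matrix (Fin n) (Fin n) F)
    (h : X.charpoly = Y.charpoly) (k : ℕ) : (X ^ k).trace = (Y ^ k).trace := by
  rcases n with _ | n
  · simp [Matrix.trace]
  · rw [Matrix.trace_eq_neg_charpoly_coeff, Matrix.trace_eq_neg_charpoly_coeff,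
      charpoly_pow X Y h k]

end Pool.Agent.H19.OD
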