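import Pool.Agent.H19.OD.Defs
import Pool.Agent.H71.Patch.Fields
import Pool.Agent.H19.OD.Pow

/-!
# Equality of traces from equality of Frobenius polynomials
-/

open scoped Pointwise NumberField
open Matrix IsDedekindDomain Pool.Agent.H71.Patch

namespace Pool.Agent.H19.OD

variable {K : Type*} [Field K] [NumberField K]

/-- an open set around `x` in an open subgroup contains a coset of an open normal subgroup -/
lemma exists_coset {A : Subgroup (GalK K)} (hA : IsOpen (A : Set (GalK K))) (x : A)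
    (V : Set A) (hV : V ∈ nhds x) :
    ∃ U ∈ openNormal K (AlgebraicClosure K), U ≤ A ∧
      ∀ y : A, (x : GalK K)⁻¹ * y ∈ U → y ∈ V := by
  have h1 : (Subtype.val '' V) ∈ nhds (x : GalK K) :=
    (hA.isOpenEmbedding_subtypeVal.image_mem_nhds).2 hV
  have h2 : (fun y : GalK K => (x : GalK K) * y) ⁻¹' (Subtype.val '' V) ∩ A ∈ nhds (1 : GalK K) := by
    refine Filter.inter_mem ?_ (hA.mem_nhds A.one_mem)
    exact (continuous_const_mul (x : GalK K)).continuousAt.preimage_mem_nhds (by simpa using h1)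
  obtain ⟨W, hW, hW'⟩ := (krullTopology_mem_nhds_one_iff K (AlgebraicClosure K) _).1 h2
  have hWf : FiniteDimensional K W := hW
  obtain ⟨U, hU, hUW⟩ := exists_openNormal_le W
  refine ⟨U, hU, fun u hu => (hW' (hUW hu)).2, ?_⟩
  intro y hy
  have h3 := (hW' (hUW hy)).1
  obtain ⟨z, hz, hz'⟩ := h3
  have h4 : (z : GalK K) = y := by rw [hz']; simp
  have h5 : z = y := Subtype.ext h4
  rwa [← h5]

omit [NumberField K] in
lemma frob_dec_conj {Q : Ideal (Zbar K)} {B : Subgroup (GalK K)} (g : GalK K)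
    (h : ∀ d ∈ Dec Q, g * d * g⁻¹ ∈ B) : Dec (g • Q) ≤ B := by
  intro d hd
  have h1 : g⁻¹ * d * g ∈ Dec Q := by
    rw [MulAction.mem_stabilizer_iff] at hd ⊢
    rw [mul_smul, mul_smul, hd, inv_smul_smul]
  have h2 := h _ h1
  have h3 : g * (g⁻¹ * d * g) * g⁻¹ = d := by group
  rwa [h3] at h2

omit [NumberField K] in
lemma above_smul_of {v : HeightOneSpectrum (𝓞 K)} {Q : Ideal (Zbar K)} (hQ : Above v Q)
    (g : GalK K) : Above v (g • Q) := by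
  have hQp : Q.IsPrime := hQ.1
  refine ⟨inferInstance, ?_⟩
  rw [← hQ.2]
  exact Ideal.under_smul (𝓞 K) Q g

/-- Two continuous functions which agree on the powers of the Frobenius elements agree. -/
theorem eq_of_frob (hFD : FrobDiv K) {F : Type*} [TopologicalSpace F] [T2Space F]
    {A B : Subgroup (GalK K)} (hA : IsOpen (A : Set (GalK K)))
    (hB : IsOpen (B : Set (GalK K))) (f : A → F) (h : B → F) (hf : Continuous f)
    (hh : Continuous h) (S : Set (HeightOneSpectrum (𝓞 K))) (hS : S.Finite) (g : GalK K)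
    (key : ∀ v ∉ S, ∀ Q, Above v Q → Dec Q ≤ A → Dec (g • Q) ≤ B → ∀ φ : GalK K,
      IsArithFrobAt (𝓞 K) φ Q → ∀ (hφ : φ ∈ A) (hφ' : g * φ * g⁻¹ ∈ B), ∀ k : ℕ,
      f (⟨φ, hφ⟩ ^ k) = h (⟨g * φ * g⁻¹, hφ'⟩ ^ k))
    (x : GalK K) (hx : x ∈ A) (hgx : g * x * g⁻¹ ∈ B) :
    f ⟨x, hx⟩ = h ⟨g * x * g⁻¹, hgx⟩ := by
  by_contra hne
  obtain ⟨V₁, V₂, hV₁, hV₂, hm₁, hm₂, hdisj⟩ := t2_separation hne
  obtain ⟨U₁, hU₁, hU₁A, hU₁'⟩ := exists_coset hA ⟨x, hx⟩ _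
    (hf.continuousAt.preimage_mem_nhds (hV₁.mem_nhds hm₁))
  obtain ⟨U₂, hU₂, hU₂B, hU₂'⟩ := exists_coset hB ⟨g * x * g⁻¹, hgx⟩ _
    (hh.continuousAt.preimage_mem_nhds (hV₂.mem_nhds hm₂))
  obtain ⟨U, hU, hUle⟩ := openNormal_inf U₁ hU₁ U₂ hU₂
  obtain ⟨M, hM1, hM2, rfl⟩ := openNormal_eq U hU
  have hn : M.fixingSubgroup.Normal := hU.1
  obtain ⟨v, hv, Q, hQ, hD, φ, hφ, k, hk⟩ := hFD M hM1 hM2 S hS x
  have hQp : Q.IsPrime := hQ.1
  have hDA : Dec Q ≤ A := hD.trans (sup_le (by rwa [Subgroup.zpowers_le]) (hUle.trans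
    (inf_le_left.trans hU₁A)))
  have hDB : Dec (g • Q) ≤ B := by
    apply frob_dec_conj g
    intro d hd
    obtain ⟨a, ha, b, hb, rfl⟩ := Subgroup.mem_sup_of_normal_right.mp (hD hd)
    obtain ⟨m, rfl⟩ := Subgroup.mem_zpowers_iff.mp ha
    have e1 : g * (x ^ m * b) * g⁻¹ = (g * x * g⁻¹) ^ m * (g * b * g⁻¹) := by
      rw [conj_zpow]; group
    rw [e1]
    exact B.mul_mem (B.zpow_mem hgx m) (hU₂B (hUle (hn.conj_mem b hb g)).2)
  have hφA : φ ∈ A := hDA (IsArithFrobAt.mem_stabilizer hφ)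
  have hφ' : IsArithFrobAt (𝓞 K) (g * φ * g⁻¹) (g • Q) := IsArithFrobAt.conj hφ g
  have hφB : g * φ * g⁻¹ ∈ B := hDB (IsArithFrobAt.mem_stabilizer hφ')
  have e3 := key v hv Q hQ hDA hDB φ hφ hφA hφB k
  have m1 : f (⟨φ, hφA⟩ ^ k) ∈ V₁ := by
    apply hU₁' (⟨φ, hφA⟩ ^ k)
    exact (hUle hk).1
  have m2 : h (⟨g * φ * g⁻¹, hφB⟩ ^ k) ∈ V₂ := by
    apply hU₂' (⟨g * φ * g⁻¹, hφB⟩ ^ k)
    have e4 : (g * x * g⁻¹)⁻¹ * (g * φ * g⁻¹) ^ k = g * (x⁻¹ * φ ^ k) * g⁻¹ := by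
      rw [conj_pow]; group
    show (g * x * g⁻¹)⁻¹ * ((⟨g * φ * g⁻¹, hφB⟩ ^ k : B) : GalK K) ∈ U₂
    rw [SubmonoidClass.coe_pow, e4]
    exact (hUle (hn.conj_mem _ hk g)).2
  rw [← e3] at m2
  exact Set.disjoint_left.mp hdisj m1 m2

/-- **Trace compatibility.** -/
theorem trace_eq (hFD : FrobDiv K) {F : Type*} [Field F] [TopologicalSpace F]
    [IsTopologicalRing F] [T2Space F] {n : ℕ} {A B : Subgroup (GalK K)}
    (hA : IsOpen (A : Set (GalK K)))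
    (hB : IsOpen (B : Set (GalK K))) (ρ : A →* GL (Fin n) F) (τ : B →* GL (Fin n) F)
    (hρc : Continuous ρ) (hτc : Continuous τ) (S : Set (HeightOneSpectrum (𝓞 K)))
    (hS : S.Finite) (P : HeightOneSpectrum (𝓞 K) → Polynomial F)
    (hρ : ∀ v ∉ S, ∀ Q, Above v Q → Dec Q ≤ A → FrobAt ρ Q (P v))
    (hτ : ∀ v ∉ S, ∀ Q, Above v Q → Dec Q ≤ B → FrobAt τ Q (P v))
    (g x : GalK K) (hx : x ∈ A) (hgx : g * x * g⁻¹ ∈ B) :
    (ρ ⟨x, hx⟩).1.trace = (τ ⟨g * x * g⁻¹, hgx⟩).1.trace := by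
  refine eq_of_frob hFD hA hB (fun y => (ρ y).1.trace) (fun y => (τ y).1.trace)
    (Units.continuous_val.comp hρc).matrix_trace (Units.continuous_val.comp hτc).matrix_trace
    S hS g ?_ x hx hgx
  intro v hv Q hQ hDA hDB φ hφ hφA hφB k
  have hQp : Q.IsPrime := hQ.1
  have e1 := hρ v hv Q hQ hDA ⟨φ, hφA⟩ hφ
  have e2 := hτ v hv (g • Q) (above_smul_of hQ g) hDB ⟨g * φ * g⁻¹, hφB⟩ (IsArithFrobAt.conj hφ g)
  show (ρ (⟨φ, hφA⟩ ^ k)).1.trace = (τ (⟨g * φ * g⁻¹, hφB⟩ ^ k)).1.trace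
  rw [map_pow, map_pow, Units.val_pow_eq_pow_val, Units.val_pow_eq_pow_val]
  exact trace_pow_eq _ _ (e1.trans e2.symm) k

/-- **Determinants.** -/
theorem det_eq (hFD : FrobDiv K) {F : Type*} [Field F] [TopologicalSpace F]
    [IsTopologicalRing F] [T2Space F] {n : ℕ} {A : Subgroup (GalK K)}
    (hA : IsOpen (A : Set (GalK K))) (ρ : A →* GL (Fin n) F) (hρc : Continuous ρ)
    (δ : GalK K →* Fˣ) (hδ : Continuous δ) (S : Set (HeightOneSpectrum (𝓞 K)))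
    (hS : S.Finite) (P : HeightOneSpectrum (𝓞 K) → Polynomial F)
    (hρ : ∀ v ∉ S, ∀ Q, Above v Q → Dec Q ≤ A → FrobAt ρ Q (P v))
    (hδd : ∀ v ∉ S, ∀ Q, Above v Q → ∀ φ : GalK K, IsArithFrobAt (𝓞 K) φ Q →
      ((δ φ : Fˣ) : F) = (-1) ^ n * (P v).coeff 0) (x : A) :
    Matrix.GeneralLinearGroup.det (ρ x) = δ x := by
  apply Units.ext
  have h1 := eq_of_frob hFD hA isOpen_univ (B := ⊤) (fun y => (ρ y).1.det)
    (fun y => ((δ y.1 : Fˣ) : F)) (Units.continuous_val.comp hρc).matrix_det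
    (Units.continuous_val.comp (hδ.comp continuous_subtype_val)) S hS 1 ?_ x.1 x.2 trivial
  · have h2 : (1 : GalK K) * (x : GalK K) * 1⁻¹ = x := by group
    simp only [h2] at h1
    exact h1
  intro v hv Q hQ hDA hDB φ hφ hφA hφB k
  have e1 := hρ v hv Q hQ hDA ⟨φ, hφA⟩ hφ
  have e2 := hδd v hv Q hQ φ hφ
  have e3 : (ρ ⟨φ, hφA⟩).1.det = ((δ φ : Fˣ) : F) := by
    rw [e2, Matrix.det_eq_sign_charpoly_coeff, e1, Fintype.card_fin]
  show (ρ (⟨φ, hφA⟩ ^ k)).1.det = ((δ ((⟨1 * φ * 1⁻¹, hφB⟩ ^ k : (⊤ : Subgroup (GalK K))) : GalK K)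
    : Fˣ) : F)
  have h2 : (1 : GalK K) * φ * 1⁻¹ = φ := by group
  rw [map_pow, Units.val_pow_eq_pow_val, Matrix.det_pow, SubmonoidClass.coe_pow, map_pow,
    Units.val_pow_eq_pow_val, e3]
  simp only [h2]

end Pool.Agent.H19.OD
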