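import Pool.Agent.H71.Patch.Defs

/-!
# Words for the descent theorem (MP_976e2b_nt)
-/

open scoped Pointwise NumberField
open Matrix IsDedekindDomain Pool.Agent.H71.Patch

namespace Pool.Agent.H19.OD

/-- `𝓜` is a directed set of finite Galois extensions of `K`, every `L i` is contained in some
`M ∈ 𝓜`, and for every `M ∈ 𝓜` some `L i ∩ M` has degree prime to `n` over `K`. -/
def PrimeFamily {K : Type*} [Field K] (n : ℕ) {ι : Type*}
    (L : ι → IntermediateField K (AlgebraicClosure K))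
    (𝓜 : Set (IntermediateField K (AlgebraicClosure K))) : Prop :=
  (∀ M ∈ 𝓜, FiniteDimensional K M ∧ IsGalois K M) ∧
  (∀ M ∈ 𝓜, ∀ M' ∈ 𝓜, ∃ M'' ∈ 𝓜, M ≤ M'' ∧ M' ≤ M'') ∧
  (∀ i, ∃ M ∈ 𝓜, L i ≤ M) ∧
  ∀ M ∈ 𝓜, ∃ i, (Module.finrank K ↥(L i ⊓ M)).Coprime n

/-- `ρ` is absolutely irreducible on `U`: the matrices `ρ g`, `g` in `U`, span all matrices. -/
def SpansOn {Γ : Type*} [Group Γ] {A : Subgroup Γ} {F : Type*} [Field F] {n : ℕ}
    (ρ : A →* GL (Fin n) F) (U : Subgroup Γ) : Prop :=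
  Submodule.span F {X : Matrix (Fin n) (Fin n) F | ∃ g : A, (g : Γ) ∈ U ∧ X = (ρ g).1} = ⊤

/-- The restriction of `σ` to each `A i` is isomorphic to `ρ i`. -/
def RestrictsTo {Γ : Type*} [Group Γ] {F : Type*} [Field F] {n : ℕ} (σ : Γ →* GL (Fin n) F)
    {ι : Type*} {A : ι → Subgroup Γ} (ρ : ∀ i, A i →* GL (Fin n) F) : Prop :=
  ∀ i, ∃ T : GL (Fin n) F, ∀ g : A i, ρ i g = T * σ g * T⁻¹

variable {K : Type*} [Field K] [NumberField K] {F : Type*} [Field F] {n : ℕ}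

/-- `σ` is unramified at all places above `v`. -/
def UnramV (σ : GalK K →* GL (Fin n) F) (v : HeightOneSpectrum (𝓞 K)) : Prop :=
  ∀ Q, Above v Q → UnramAt (σ.comp (⊤ : Subgroup (GalK K)).subtype) Q

/-- `σ` has the Frobenius polynomial `p` at all places above `v`. -/
def FrobV (σ : GalK K →* GL (Fin n) F) (v : HeightOneSpectrum (𝓞 K)) (p : Polynomial F) : Prop :=
  ∀ Q, Above v Q → FrobAt (σ.comp (⊤ : Subgroup (GalK K)).subtype) Q p

end Pool.Agent.H19.OD
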